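import Mathlib
import Pool.Agent.Helper240.ZFM.Q5b
import Pool.Agent.Q86.PlaneDiff

set_option autoImplicit false

/-!
Let `X` be a compact plane set which is pointwise regular (for instance uniformly regular) and
polynomially convex, and whose interior is connected and dense in `X`.  Then `D^(1)(X) = A^(1)(X)`.

Proof.  Let `f ∈ A^(1)(X)` and let `g ∈ C(X)` extend `f'`.  By Mergelyan's theorem `g` is the uniform
limit on `X` of polynomials `p_n`.  The primitives `P_n` of the `p_n` satisfy
`|(P_n - P_m)(z) - (P_n - P_m)(w)| ≤ k_z |z - w| |p_n - p_m|_X` by integration along paths in `X`, so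
they converge to a function `F ∈ D^(1)(X)` with `F' = g`, and `F - f` is constant on the connected
dense interior.
-/

namespace Pool.Agent.Results.MP_8e12aa_an.NoSeparation

open Set Topology Filter Metric

/-- There is a rectifiable path in `X` from `z` to `w` of length at most `L`. -/
def JoinedLE (X : Set ℂ) (L : ℝ) (z w : ℂ) : Prop :=
  ∃ γ : ℝ → ℂ, ContinuousOn γ (Icc 0 1) ∧ (∀ t ∈ Icc (0 : ℝ) 1, γ t ∈ X) ∧ γ 0 = z ∧ γ 1 = w ∧
    eVariationOn γ (Icc 0 1) ≤ ENNReal.ofReal L

/-- `X` is pointwise regular. -/
def PointwiseRegular (X : Set ℂ) : Prop :=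
  ∀ z ∈ X, ∃ k : ℝ, ∀ w ∈ X, JoinedLE X (k * ‖z - w‖) z w

/-- `X` is uniformly regular. -/
def UniformlyRegular (X : Set ℂ) : Prop :=
  ∃ k : ℝ, ∀ z ∈ X, ∀ w ∈ X, JoinedLE X (k * ‖z - w‖) z w

/-- `f ∈ D^(1)(X)`: `f` is continuous on `X` and has a derivative through `X` at every point of `X`,
which is continuous on `X`. -/
def InD1 (X : Set ℂ) (f : ℂ → ℂ) : Prop :=
  ContinuousOn f X ∧ ∃ g : ℂ → ℂ, ContinuousOn g X ∧
    ∀ a ∈ X, Tendsto (fun z => (f z - f a) / (z - a)) (𝓝[X \ {a}] a) (𝓝 (g a))

/-- `f ∈ A^(1)(X)`: `f` is continuous on `X`, analytic in the interior of `X`, and the derivative there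
extends to a continuous function on `X`. -/
def InA1 (X : Set ℂ) (f : ℂ → ℂ) : Prop :=
  ContinuousOn f X ∧ ∃ g : ℂ → ℂ, ContinuousOn g X ∧ ∀ a ∈ interior X, HasDerivAt f (g a) a

theorem result :
    (∀ X : Set ℂ, IsCompact X → PointwiseRegular X → IsConnected Xᶜ →
      IsConnected (interior X) → X ⊆ closure (interior X) →
      ∀ f : ℂ → ℂ, InD1 X f ↔ InA1 X f) ∧
    ¬ ∃ X : Set ℂ, IsCompact X ∧ X.Nonempty ∧ UniformlyRegular X ∧ IsConnected Xᶜ ∧
      IsConnected (interior X) ∧ X ⊆ closure (interior X) ∧
      {f : ℂ → ℂ | InD1 X f} ≠ {f : ℂ → ℂ | InA1 X f} := by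
  have key : ∀ X : Set ℂ, IsCompact X → PointwiseRegular X → IsConnected Xᶜ →
      IsConnected (interior X) → X ⊆ closure (interior X) →
      ∀ f : ℂ → ℂ, InD1 X f ↔ InA1 X f := by
    intro X hX hreg hconn hint hdense f
    constructor
    · rintro ⟨hf, g, hg, hd⟩
      refine ⟨hf, g, hg, fun a ha => ?_⟩
      have haX : a ∈ X := interior_subset ha
      have h1 := hd a haX
      have hX' : X ∈ 𝓝 a := mem_interior_iff_mem_nhds.1 ha
      rw [hasDerivAt_iff_tendsto_slope]
      have e : 𝓝[X \ {a}] a = 𝓝[≠] a := by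
        rw [sdiff_eq, inter_comm]
        exact nhdsWithin_inter_of_mem' (mem_nhdsWithin_of_mem_nhds hX')
      rw [e] at h1
      refine h1.congr' ?_
      filter_upwards [self_mem_nhdsWithin] with z hz
      rw [slope_def_field]
    · rintro ⟨hf, g, hg, hd⟩
      -- Mergelyan
      have hgol : DifferentiableOn ℂ g (interior X) := by
        have h1 : DifferentiableOn ℂ f (interior X) := fun a ha =>
          (hd a ha).differentiableAt.differentiableWithinAt
        have h2 : DifferentiableOn ℂ (deriv f) (interior X) := h1.deriv isOpen_interior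
        exact h2.congr fun a ha => ((hd a ha).deriv).symm
      have hmer : ∀ n : ℕ, ∃ p : Polynomial ℂ, ∀ z ∈ X, ‖p.eval z - g z‖ < 1 / ((n : ℝ) + 1) :=
        fun n => ZFM.mergelyan hX hconn g hg hgol _ (by positivity)
      choose p hp using hmer
      obtain ⟨z0, hz0⟩ := hint.nonempty
      have hz0X : z0 ∈ X := interior_subset hz0
      have hP : ∀ n, ∃ P : Polynomial ℂ, P.derivative = p n ∧ P.eval z0 = f z0 := by
        intro n
        obtain ⟨P, hP⟩ := Pool.Agent.Q86.PlaneDiff.exists_antideriv (p n)
        refine ⟨P + Polynomial.C (f z0 - P.eval z0), ?_, ?_⟩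
        · simp [hP]
        · simp
      choose P hPd hPz using hP
      -- increments
      have hreg' : ∀ z ∈ X, ∃ k : ℝ, 0 ≤ k ∧ ∀ w ∈ X,
          Pool.Agent.Q86.PlaneDiff.JoinedLE X (k * ‖z - w‖) z w := by
        intro z hz
        obtain ⟨k, hk⟩ := hreg z hz
        refine ⟨max k 0, le_max_right _ _, fun w hw => ?_⟩
        obtain ⟨γ, h1, h2, h3, h4, h5⟩ := hk w hw
        refine ⟨γ, h1, h2, h3, h4, h5.trans (ENNReal.ofReal_le_ofReal ?_)⟩
        exact mul_le_mul_of_nonneg_right (le_max_left _ _) (norm_nonneg _)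
      have hinc : ∀ z ∈ X, ∃ k : ℝ, 0 ≤ k ∧ ∀ w ∈ X, ∀ n m : ℕ,
          ‖((P n).eval w - (P m).eval w) - ((P n).eval z - (P m).eval z)‖ ≤
            (1 / ((n : ℝ) + 1) + 1 / ((m : ℝ) + 1)) * (k * ‖z - w‖) := by
        intro z hz
        obtain ⟨k, hk0, hk⟩ := hreg' z hz
        refine ⟨k, hk0, fun w hw n m => ?_⟩
        have := Pool.Agent.Q86.PlaneDiff.path_bound hX (P n - P m)
          (M := 1 / ((n : ℝ) + 1) + 1 / ((m : ℝ) + 1)) (L := k * ‖z - w‖) (by positivity)
          (by positivity) ?_ (hk w hw)
        · simpa using this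
        · intro x hx
          have h1 := (hp n x hx).le
          have h2 := (hp m x hx).le
          have e : (Polynomial.derivative (P n - P m)).eval x =
              ((p n).eval x - g x) - ((p m).eval x - g x) := by
            rw [Polynomial.derivative_sub, hPd, hPd]
            simp
          rw [e]
          exact (norm_sub_le _ _).trans (add_le_add h1 h2)
      -- Cauchy
      have hcau : ∀ w ∈ X, ∃ F : ℂ, Tendsto (fun n => (P n).eval w) atTop (𝓝 F) := by
        intro w hw
        obtain ⟨k, hk0, hk⟩ := hinc z0 hz0X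
        refine cauchySeq_tendsto_of_complete ?_
        refine cauchySeq_of_le_tendsto_0 (fun N => 2 / ((N : ℝ) + 1) * (k * ‖z0 - w‖)) ?_ ?_
        · intro n m N hn hm
          have h1 := hk w hw n m
          rw [hPz, hPz, sub_self, sub_zero] at h1
          rw [dist_eq_norm]
          refine h1.trans ?_
          have hn' : 1 / ((n : ℝ) + 1) ≤ 1 / ((N : ℝ) + 1) := by
            have : (N : ℝ) ≤ n := by exact_mod_cast hn
            gcongr
          have hm' : 1 / ((m : ℝ) + 1) ≤ 1 / ((N : ℝ) + 1) := by
            have : (N : ℝ) ≤ m := by exact_mod_cast hm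
            gcongr
          have e : 2 / ((N : ℝ) + 1) = 1 / ((N : ℝ) + 1) + 1 / ((N : ℝ) + 1) := by ring
          rw [e]
          gcongr
        · have h1 : Tendsto (fun N : ℕ => 2 / ((N : ℝ) + 1)) atTop (𝓝 0) := by
            have := (tendsto_one_div_add_atTop_nhds_zero_nat (𝕜 := ℝ)).const_mul 2
            simpa [div_eq_mul_inv] using this
          simpa using h1.mul_const (k * ‖z0 - w‖)
      choose! F hF using hcau
      have hpg : ∀ w ∈ X, Tendsto (fun n => (p n).eval w) atTop (𝓝 (g w)) := by
        intro w hw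
        rw [tendsto_iff_norm_sub_tendsto_zero]
        refine squeeze_zero (fun n => norm_nonneg _) (fun n => (hp n w hw).le) ?_
        exact tendsto_one_div_add_atTop_nhds_zero_nat
      -- the derivative of F
      have hFd : ∀ a ∈ X, HasDerivWithinAt F (g a) X a := by
        intro a ha
        obtain ⟨k, hk0, hk⟩ := hinc a ha
        rw [hasDerivWithinAt_iff_isLittleO, Asymptotics.isLittleO_iff]
        intro c hc
        obtain ⟨n, hn⟩ := exists_nat_gt ((k + 1) / (c / 2))
        have hn1 : (1 / ((n : ℝ) + 1)) * (k + 1) ≤ c / 2 := by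
          rw [div_lt_iff₀ (by positivity)] at hn
          rw [one_div_mul_eq_div, div_le_iff₀ (by positivity)]
          nlinarith
        have hPn : (fun w => (P n).eval w - (P n).eval a - (w - a) • (p n).eval a) =o[𝓝 a]
            fun w => w - a := by
          have := (P n).hasDerivAt a
          rw [hPd, hasDerivAt_iff_isLittleO] at this
          exact this
        have hev := (Asymptotics.isLittleO_iff.1 hPn (c := c / 2) (by positivity))
        have hev' := hev.filter_mono (nhdsWithin_le_nhds (a := a) (s := X))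
        filter_upwards [hev', self_mem_nhdsWithin] with w hw hwX
        -- pass to the limit m → ∞
        have hlim : ‖((P n).eval w - F w) - ((P n).eval a - F a)‖ ≤
            1 / ((n : ℝ) + 1) * (k * ‖a - w‖) := by
          have h1 : Tendsto (fun m : ℕ =>
              ‖((P n).eval w - (P m).eval w) - ((P n).eval a - (P m).eval a)‖) atTop
              (𝓝 ‖((P n).eval w - F w) - ((P n).eval a - F a)‖) :=
            ((tendsto_const_nhds.sub (hF w hwX)).sub (tendsto_const_nhds.sub (hF a ha))).norm
          have h2 : Tendsto (fun m : ℕ => (1 / ((n : ℝ) + 1) + 1 / ((m : ℝ) + 1)) * (k * ‖a - w‖))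
              atTop (𝓝 ((1 / ((n : ℝ) + 1) + 0) * (k * ‖a - w‖))) :=
            (tendsto_const_nhds.add tendsto_one_div_add_atTop_nhds_zero_nat).mul_const _
          rw [add_zero] at h2
          exact le_of_tendsto_of_tendsto' h1 h2 fun m => hk w hwX n m
        have hg' : ‖(p n).eval a - g a‖ ≤ 1 / ((n : ℝ) + 1) := (hp n a ha).le
        have e : F w - F a - (w - a) • g a =
            -(((P n).eval w - F w) - ((P n).eval a - F a)) +
            ((P n).eval w - (P n).eval a - (w - a) • (p n).eval a) +
            (w - a) * ((p n).eval a - g a) := by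
          simp only [smul_eq_mul]; ring
        rw [e]
        refine (norm_add₃_le).trans ?_
        rw [norm_neg, norm_mul]
        have hsym : ‖a - w‖ = ‖w - a‖ := norm_sub_rev _ _
        rw [hsym] at hlim
        have hx0 : 0 ≤ ‖w - a‖ := norm_nonneg _
        calc _ ≤ 1 / ((n : ℝ) + 1) * (k * ‖w - a‖) + c / 2 * ‖w - a‖ +
              ‖w - a‖ * (1 / ((n : ℝ) + 1)) := by gcongr
          _ = (1 / ((n : ℝ) + 1) * (k + 1) + c / 2) * ‖w - a‖ := by ring
          _ ≤ (c / 2 + c / 2) * ‖w - a‖ := by gcongr
          _ = c * ‖w - a‖ := by ring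
      -- F = f on X
      have hFz0 : F z0 = f z0 := by
        refine tendsto_nhds_unique (hF z0 hz0X) ?_
        simp only [hPz]
        exact tendsto_const_nhds
      have hFc : ContinuousOn F X := fun a ha => (hFd a ha).continuousWithinAt
      have hFf : ∀ a ∈ interior X, F a = f a := by
        have hdiff : ∀ a ∈ interior X, HasDerivAt (fun z => F z - f z) 0 a := by
          intro a ha
          have h1 := (hFd a (interior_subset ha)).hasDerivAt (mem_interior_iff_mem_nhds.1 ha)
          have h2 := h1.sub (hd a ha)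
          rw [sub_self] at h2
          exact h2
        intro a ha
        have h2 : F a - f a = F z0 - f z0 := by
          refine isOpen_interior.is_const_of_deriv_eq_zero (𝕜 := ℂ) (f := fun z => F z - f z)
            hint.isPreconnected ?_ ?_ ha hz0
          · exact fun x hx => (hdiff x hx).differentiableAt.differentiableWithinAt
          · exact fun x hx => (hdiff x hx).deriv
        rw [hFz0, sub_self] at h2
        exact sub_eq_zero.1 h2
      have hFX : ∀ a ∈ X, F a = f a := by
        intro a ha
        have hcl : a ∈ closure (interior X) := hdense ha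
        have h3 : (𝓝[interior X] a).NeBot := mem_closure_iff_nhdsWithin_neBot.1 hcl
        have h4 : Tendsto F (𝓝[interior X] a) (𝓝 (F a)) :=
          (hFc a ha).mono_left (nhdsWithin_mono _ interior_subset)
        have h5 : Tendsto f (𝓝[interior X] a) (𝓝 (f a)) :=
          (hf a ha).mono_left (nhdsWithin_mono _ interior_subset)
        refine tendsto_nhds_unique h4 (h5.congr' ?_)
        filter_upwards [self_mem_nhdsWithin] with x hx
        exact (hFf x hx).symm
      refine ⟨hf, g, hg, fun a ha => ?_⟩
      have h6 : HasDerivWithinAt f (g a) X a :=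
        (hFd a ha).congr (fun x hx => (hFX x hx).symm) (hFX a ha).symm
      rw [hasDerivWithinAt_iff_tendsto_slope] at h6
      refine h6.congr fun z => ?_
      rw [slope_def_field]
  refine ⟨key, ?_⟩
  rintro ⟨X, hX, -, ⟨k, hk⟩, hconn, hint, hdense, hne⟩
  exact hne (Set.ext fun f => key X hX (fun z hz => ⟨k, fun w hw => hk z hz w hw⟩)
    hconn hint hdense f)

end Pool.Agent.Results.MP_8e12aa_an.NoSeparation
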